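import Mathlib
set_option linter.style.longLine false
namespace Pool.Agent.H.MP_6f3246_lc
open Set Cardinal Function

/-- `ℵ₁`-dense -/
def Dn (L : Type) [LinearOrder L] : Prop := Nontrivial L ∧ ∀ a b : L, a < b → #(Ioo a b) = ℵ₁

/-- every point that is a supremum from below is the supremum of countably many smaller points -/
def Cf (L : Type) [LinearOrder L] : Prop :=
  ∀ (x : L) (s : Set L), s.Nonempty → s ⊆ Iio x → IsLUB s x → ∃ t ⊆ Iio x, t.Countable ∧ IsLUB t x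

/-- the class `𝒞` -/
def InC (L : Type) [LinearOrder L] : Prop := Dn L ∧ Cf L ∧ Cf Lᵒᵈ

/-- LOTS embeddability -/
def Emb (A B : Type) [LinearOrder A] [LinearOrder B] : Prop :=
  ∃ f : A → B, Injective f ∧ Monotone f ∧ @Continuous A B (Preorder.topology A) (Preorder.topology B) f

/-- the uncountable linear orders have a finite basis (of orders of size `ℵ₁`) -/
def FB : Prop := ∃ (n : ℕ) (Y : Fin n → LinOrd.{0}), (∀ i, #(Y i).carrier = ℵ₁) ∧
  ∀ (Z : Type) [LinearOrder Z], Uncountable Z → ∃ i, Nonempty ((Y i).carrier ↪o Z)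

/-- Souslin's hypothesis -/
def SH : Prop := ∀ (L : Type) [LinearOrder L] [DenselyOrdered L] [NoMinOrder L] [NoMaxOrder L],
  (∀ S : Set (L × L), (∀ q ∈ S, q.1 < q.2) → (S.Pairwise fun q r => Disjoint (Ioo q.1 q.2) (Ioo r.1 r.2)) →
    S.Countable) → ∃ D : Set L, D.Countable ∧ ∀ a b, a < b → ∃ d ∈ D, a < d ∧ d < b

/-- Baumgartner's axiom -/
def BA : Prop := ∀ A B : Set ℝ, (∀ a b, a < b → #(A ∩ Ioo a b : Set ℝ) = ℵ₁) →
  (∀ a b, a < b → #(B ∩ Ioo a b : Set ℝ) = ℵ₁) → Nonempty (A ≃o B)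

lemma emb_of {A B : Type} [LinearOrder A] [LinearOrder B] {f : A → B} (hf : StrictMono f)
    (l : ∀ x u, u < f x → ∃ y < x, u < f y) (r : ∀ x u, f x < u → ∃ y, x < y ∧ f y < u) : Emb A B := by
  let _ := Preorder.topology A
  let _ := Preorder.topology B
  have : OrderTopology A := ⟨rfl⟩
  refine ⟨f, hf.injective, hf.monotone, continuous_generateFrom_iff.2 ?_⟩
  rintro _ ⟨u, rfl | rfl⟩ <;> refine isOpen_iff_mem_nhds.2 fun x hx => ?_
  · obtain ⟨y, a, b⟩ := l x u hx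
    exact Filter.mem_of_superset (Ioi_mem_nhds a) fun z hz => b.trans (hf hz)
  · obtain ⟨y, a, b⟩ := r x u hx
    exact Filter.mem_of_superset (Iio_mem_nhds a) fun z hz => (hf hz).trans b

lemma Dn.dense {L : Type} [LinearOrder L] (h : Dn L) : DenselyOrdered L :=
  ⟨fun a b l => by
    obtain ⟨⟨x, hx⟩⟩ := mk_ne_zero_iff.1 ((h.2 a b l).trans_ne (aleph_pos 1).ne')
    exact ⟨x, hx⟩⟩

lemma cf_of {L : Type} [LinearOrder L] (h : ∀ x : L, ∃ t : ℕ → L, (∀ n, t n < x) ∧ ∀ u < x, ∃ n, u < t n) : Cf L := by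
  intro x _ _ _ _
  obtain ⟨t, a, b⟩ := h x
  refine ⟨range t, range_subset_iff.2 a, countable_range t, fun _ ⟨n, e⟩ => e ▸ (a n).le, fun u hu => not_lt.1 fun l => ?_⟩
  obtain ⟨n, hn⟩ := b u l
  exact hn.not_ge (hu ⟨n, rfl⟩)

lemma seqL {L : Type} [LinearOrder L] [DenselyOrdered L] (h : Cf L) {a x : L} (l : a < x) :
    ∃ s : ℕ → L, StrictMono s ∧ (∀ n, a ≤ s n ∧ s n < x) ∧ ∀ u < x, ∃ n, u ≤ s n := by
  obtain ⟨t, t1, t2, t3⟩ := h x (Iio x) ⟨a, l⟩ subset_rfl isLUB_Iio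
  obtain ⟨e, he⟩ := (t2.insert a).exists_eq_range (insert_nonempty _ _)
  have el : ∀ n, e n < x := fun n => by
    rcases (he ▸ mem_range_self n : e n ∈ insert a t) with h | h
    exacts [h ▸ l, t1 h]
  have : ∀ (n : ℕ) (y : Iio x), ∃ z : Iio x, y < z ∧ e n < z := fun n y => by
    obtain ⟨z, i, j⟩ := exists_between (max_lt y.2 (el n))
    exact ⟨⟨z, j⟩, (max_lt_iff.1 i).1, (max_lt_iff.1 i).2⟩
  choose F f1 f2 using this
  let s : ℕ → Iio x := fun n => Nat.rec ⟨a, l⟩ F n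
  have sm : StrictMono s := strictMono_nat_of_lt_succ fun n => f1 n _
  refine ⟨fun n => (s n).1, fun _ _ h => sm h, fun n => ⟨sm.monotone (Nat.zero_le n), (s n).2⟩, fun u hu => ?_⟩
  obtain ⟨y, y1, y2⟩ := (lt_isLUB_iff t3).1 hu
  obtain ⟨n, rfl⟩ : y ∈ range e := he ▸ Or.inr y1
  exact ⟨n + 1, (y2.trans (f2 n _)).le⟩

variable {A : Type} [LinearOrder A]

inductive W (p : LowerSet A) : Type
  | nil : W p
  | cons : A → W p → W p

variable {p : LowerSet A}

def W.lt : W p → W p → Prop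
  | nil, nil => False
  | nil, cons a _ => a ∉ p
  | cons a _, nil => a ∈ p
  | cons a s, cons b t => a < b ∨ a = b ∧ lt s t

instance : IsStrictTotalOrder (W p) W.lt where
  irrefl s := by induction s <;> simp_all [W.lt]
  trichotomous s := by
    induction s with
    | nil => rintro (_ | _) <;> simp +contextual [W.lt]
    | cons a s ih =>
      rintro (_ | ⟨b, t⟩)
      · simp +contextual [W.lt]
      · intro i j
        simp only [W.lt, not_or, not_and, not_lt] at i j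
        obtain rfl := le_antisymm j.1 i.1
        rw [ih t (i.2 rfl) (j.2 rfl)]
  trans s := by
    induction s with
    | nil =>
      rintro (_ | ⟨b, t⟩) (_ | ⟨c, u⟩) <;> simp only [W.lt] <;> intro i j
      any_goals tauto
      rcases j with j | ⟨rfl, -⟩
      exacts [fun k => i (p.lower j.le k), i]
    | cons a s ih =>
      rintro (_ | ⟨b, t⟩) (_ | ⟨c, u⟩) <;> simp only [W.lt] <;> intro i j
      · exact j.elim
      · exact Or.inl (not_le.1 fun k => j (p.lower k i))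
      · rcases i with i | ⟨rfl, -⟩
        exacts [p.lower i.le j, j]
      · rcases i with i | ⟨rfl, i⟩ <;> rcases j with j | ⟨rfl, j⟩
        exacts [Or.inl (i.trans j), Or.inl i, Or.inl j, Or.inr ⟨rfl, ih _ _ i j⟩]

noncomputable instance : LinearOrder (W p) := by classical exact linearOrderOfSTO W.lt

lemma nc {a : A} {s : W p} : W.nil < W.cons a s ↔ a ∉ p := Iff.rfl
lemma cn {a : A} {s : W p} : W.cons a s < W.nil ↔ a ∈ p := Iff.rfl
lemma cc {a b : A} {s t : W p} : W.cons a s < W.cons b t ↔ a < b ∨ a = b ∧ s < t := Iff.rfl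

lemma inC (hA : #A = ℵ₁) (l r : ℕ → A) (l1 : ∀ n, l n ∈ p) (l2 : ∀ a ∈ p, ∃ n, a < l n)
    (r1 : ∀ n, r n ∉ p) (r2 : ∀ a ∉ p, ∃ n, r n < a) : InC (W p) := by
  have L : ∀ x : W p, ∃ g : ℕ → W p → W p, (∀ n, Injective (g n)) ∧ (∀ n w, g n w < x) ∧
      ∀ u < x, ∃ n, ∀ w, u < g n w := by
    intro x
    induction x with
    | nil =>
      refine ⟨fun n => W.cons (l n), fun n _ _ h => by simpa using h, fun n w => l1 n, ?_⟩
      rintro (_ | ⟨a, u⟩) h
      · exact absurd h (lt_irrefl _)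
      · exact (l2 a h).imp fun n k w => Or.inl k
    | cons a s ih =>
      obtain ⟨g, i, j, k⟩ := ih
      refine ⟨fun n w => W.cons a (g n w), fun n _ _ h => i n (by simpa using h), fun n w => Or.inr ⟨rfl, j n w⟩, ?_⟩
      rintro (_ | ⟨b, u⟩) h
      · exact ⟨0, fun _ => h⟩
      · rcases cc.1 h with h | ⟨rfl, h'⟩
        exacts [⟨0, fun _ => Or.inl h⟩, (k u h').imp fun n k w => Or.inr ⟨rfl, k w⟩]
  have R : ∀ x : W p, ∃ t : ℕ → W p, (∀ n, x < t n) ∧ ∀ u, x < u → ∃ n, t n < u := by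
    intro x
    induction x with
    | nil =>
      refine ⟨fun n => W.cons (r n) W.nil, r1, ?_⟩
      rintro (_ | ⟨a, u⟩) h
      · exact absurd h (lt_irrefl _)
      · exact (r2 a h).imp fun n k => Or.inl k
    | cons a s ih =>
      obtain ⟨g, j, k⟩ := ih
      refine ⟨fun n => W.cons a (g n), fun n => Or.inr ⟨rfl, j n⟩, ?_⟩
      rintro (_ | ⟨b, u⟩) h
      · exact ⟨0, h⟩
      · rcases cc.1 h with h | ⟨rfl, h'⟩
        exacts [⟨0, Or.inl h⟩, (k u h').imp fun n k => Or.inr ⟨rfl, k⟩]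
  have c : #(W p) = ℵ₁ := by
    have : Infinite A := infinite_iff.2 (hA ▸ aleph0_le_aleph 1)
    refine le_antisymm ?_ (hA ▸ mk_le_of_injective (f := fun a => W.cons a W.nil) fun _ _ h => by simpa using h)
    rw [← hA, ← mk_list_eq_mk A]
    refine mk_le_of_surjective (f := fun s : List A => s.foldr W.cons W.nil) fun w => ?_
    induction w with
    | nil => exact ⟨[], rfl⟩
    | cons a w ih => obtain ⟨s, rfl⟩ := ih; exact ⟨a :: s, rfl⟩
  refine ⟨⟨⟨W.nil, W.cons (l 0) W.nil, by simp⟩, fun a b h => le_antisymm (c ▸ mk_set_le _) ?_⟩, cf_of fun x => ?_,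
    cf_of (L := (W p)ᵒᵈ) R⟩
  · obtain ⟨g, i, j, k⟩ := L b
    obtain ⟨n, k⟩ := k a h
    exact c ▸ mk_le_of_injective (f := fun w => (⟨g n w, k w, j n w⟩ : Ioo a b)) fun _ _ h => i n (congrArg Subtype.val h)
  · obtain ⟨g, -, j, k⟩ := L x
    exact ⟨fun n => g n W.nil, fun n => j n _, fun u h => (k u h).imp fun n k => k _⟩

lemma embW {L I : Type} [LinearOrder L] (i0 : I) (lo hi pt : I → L) (J : I → A → I)
    (h1 : ∀ i, lo i < pt i ∧ pt i < hi i) (h2 : ∀ i a, lo i ≤ lo (J i a) ∧ hi (J i a) ≤ hi i)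
    (h3 : ∀ i a b, a < b → hi (J i a) ≤ lo (J i b)) (h4 : ∀ i, ∀ a ∈ p, hi (J i a) ≤ pt i)
    (h5 : ∀ i, ∀ a ∉ p, pt i ≤ lo (J i a)) (h6 : ∀ i, ∀ u < pt i, ∃ a ∈ p, u ≤ lo (J i a))
    (h7 : ∀ i u, pt i < u → ∃ a ∉ p, hi (J i a) ≤ u) : Emb (W p) L := by
  let F : W p → I → L := fun w => W.rec pt (fun a _ f i => f (J i a)) w
  have b : ∀ w i, lo i < F w i ∧ F w i < hi i := fun w => by
    induction w with
    | nil => exact h1
    | cons a w ih => exact fun i => ⟨(h2 i a).1.trans_lt (ih _).1, (ih _).2.trans_le (h2 i a).2⟩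
  have m : ∀ s t i, s < t → F s i < F t i := fun s => by
    induction s with
    | nil =>
      rintro (_ | ⟨a, t⟩) i h
      exacts [absurd h (lt_irrefl _), (h5 i a h).trans_lt (b t _).1]
    | cons a s ih =>
      rintro (_ | ⟨c, t⟩) i h
      · exact (b s _).2.trans_le (h4 i a h)
      · rcases cc.1 h with h | ⟨rfl, h'⟩
        exacts [(b s _).2.trans_le ((h3 i a c h).trans (b t _).1.le), ih t _ h']
  refine emb_of (f := fun w => F w i0) (fun s t => m s t i0) (fun x => ?_) fun x => ?_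
  · induction x generalizing i0 with
    | nil =>
      intro u h
      obtain ⟨a, i, j⟩ := h6 i0 u h
      exact ⟨W.cons a W.nil, i, j.trans_lt (h1 _).1⟩
    | cons a x ih =>
      intro u h
      obtain ⟨y, i, j⟩ := ih _ u h
      exact ⟨W.cons a y, Or.inr ⟨rfl, i⟩, j⟩
  · induction x generalizing i0 with
    | nil =>
      intro u h
      obtain ⟨a, i, j⟩ := h7 i0 u h
      exact ⟨W.cons a W.nil, i, (h1 _).2.trans_le j⟩
    | cons a x ih =>
      intro u h
      obtain ⟨y, i, j⟩ := ih _ u h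
      exact ⟨W.cons a y, Or.inr ⟨rfl, i⟩, j⟩

end Pool.Agent.H.MP_6f3246_lc
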