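import Pool.Agent.H.MP_6f3246_lc.A
set_option linter.style.longLine false
namespace Pool.Agent.H.MP_6f3246_lc
open Set Cardinal Function

def pl (Y : Type) [LinearOrder Y] : LowerSet ((ℕ ⊕ₗ ℕᵒᵈ) ×ₗ Y) :=
  ⟨{a | ∃ n, a.1 = Sum.inl n}, by
    rintro ⟨_, y⟩ ⟨k | k, z⟩ h ⟨n, rfl⟩
    · exact ⟨k, rfl⟩
    · exact absurd (Prod.Lex.monotone_fst _ _ h) Sum.Lex.not_inr_le_inl⟩

variable {Y L : Type} [LinearOrder Y] [LinearOrder L]

lemma inCY (hY : #Y = ℵ₁) : InC (W (pl Y)) := by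
  obtain ⟨y0⟩ := mk_ne_zero_iff.1 (hY.trans_ne (aleph_pos 1).ne')
  refine inC ?_ (fun n => toLex (toLex (Sum.inl n), y0)) (fun n => toLex (toLex (Sum.inr n), y0)) (fun n => ⟨n, rfl⟩)
    ?_ (fun n ⟨_, h⟩ => by cases h) ?_
  · change #((ℕ ⊕ ℕ) × Y) = _
    simp [hY]
  · rintro ⟨_, y⟩ ⟨n, rfl⟩
    exact ⟨n + 1, Prod.Lex.left _ _ (Sum.Lex.inl_lt_inl_iff.2 n.lt_succ_self)⟩
  · rintro ⟨n | n, y⟩ h
    · exact absurd ⟨n, rfl⟩ h
    · exact ⟨(n : ℕ).succ, Prod.Lex.left _ _ (Sum.Lex.inr_lt_inr_iff.2 (Nat.lt_succ_self n))⟩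

def Q (Y : Type) [LinearOrder Y] (a b : L) : Prop :=
  ∃ lo hi : Y → L, (∀ y, a ≤ lo y ∧ lo y < hi y ∧ hi y ≤ b) ∧ ∀ y z, y < z → hi y ≤ lo z

lemma embY (y0 : Y) (h : InC L) {c d : L} (l : c < d) (H : ∀ a b, c ≤ a → a < b → b ≤ d → Q Y a b) : Emb (W (pl Y)) L := by
  have := h.1.dense
  let I := {q : L × L // c ≤ q.1 ∧ q.1 < q.2 ∧ q.2 ≤ d}
  choose pt p1 p2 using fun i : I => exists_between i.2.2.1
  choose s s1 s2 s3 using fun i : I => seqL h.2.1 (p1 i)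
  choose t t1 t2 t3 using fun i : I => seqL (L := Lᵒᵈ) h.2.2 (a := i.1.2) (x := pt i) (p2 i)
  choose lo hi q1 q2 using fun i : I => H _ _ i.2.1 i.2.2.1 i.2.2.2
  let J1 : I → ℕ ⊕ ℕ → I := fun i k => k.elim
    (fun n => ⟨(s i n, s i (n + 1)), i.2.1.trans (s2 i n).1, s1 i n.lt_succ_self, ((s2 i _).2.trans (p2 i)).le.trans i.2.2.2⟩)
    fun n => ⟨(t i (n + 1), t i n), i.2.1.trans ((p1 i).trans (t2 i _).2).le, t1 i n.lt_succ_self,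
      le_trans (α := L) (t2 i n).1 i.2.2.2⟩
  let J2 : I → Y → I := fun i y => ⟨(lo i y, hi i y), i.2.1.trans (q1 i y).1, (q1 i y).2.1, (q1 i y).2.2.trans i.2.2.2⟩
  refine embW (I := I) ⟨(c, d), le_rfl, l, le_rfl⟩ (·.1.1) (·.1.2) pt (fun i a => J2 (J1 i a.1) a.2)
    (fun i => ⟨p1 i, p2 i⟩) ?_ ?_ ?_ ?_ (fun i u h => ?_) fun i u h => ?_
  · rintro i ⟨n | n, y⟩
    · exact ⟨(s2 i n).1.trans (q1 (J1 i (.inl n)) y).1, (q1 (J1 i (.inl n)) y).2.2.trans ((s2 i _).2.trans (p2 i)).le⟩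
    · exact ⟨((p1 i).trans (t2 i (Nat.succ n)).2).le.trans (q1 (J1 i (.inr n)) y).1, (q1 (J1 i (.inr n)) y).2.2.trans (t2 i n).1⟩
  · rintro i ⟨k, y⟩ ⟨m, z⟩ h
    rcases Prod.Lex.lt_iff.1 h with h | ⟨e, h⟩
    · refine (q1 _ y).2.2.trans (le_trans ?_ (q1 _ z).1)
      rcases k with k | k <;> rcases m with m | m
      · exact (s1 i).monotone (Sum.Lex.inl_lt_inl_iff.1 h)
      · exact ((s2 i _).2.trans (t2 i _).2).le
      · exact absurd h Sum.Lex.not_inr_lt_inl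
      · exact (t1 i).monotone (Sum.Lex.inr_lt_inr_iff.1 h)
    · obtain rfl : k = m := e
      exact q2 _ y z h
  · rintro i ⟨_, y⟩ ⟨n, rfl⟩
    exact (q1 _ y).2.2.trans (s2 i _).2.le
  · rintro i ⟨n | n, y⟩ h
    · exact absurd ⟨n, rfl⟩ h
    · exact le_trans (α := L) (t2 i (Nat.succ n)).2.le (q1 (J1 i (.inr n)) y).1
  · obtain ⟨n, hn⟩ := s3 i u h
    exact ⟨(Sum.inl n, y0), ⟨n, rfl⟩, hn.trans (q1 (J1 i (.inl n)) y0).1⟩
  · obtain ⟨n, hn⟩ := t3 i u h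
    exact ⟨(Sum.inr n, y0), fun ⟨_, h⟩ => (by cases h), (q1 (J1 i (.inr n)) y0).2.2.trans hn⟩

lemma rep [NoMinOrder L] [NoMaxOrder L] (h : Dn L) {D : Set L} (d1 : D.Countable)
    (d2 : ∀ a b, a < b → ∃ d ∈ D, a < d ∧ d < b) :
    ∃ A : Set ℝ, (∀ a b, a < b → #(A ∩ Ioo a b : Set ℝ) = ℵ₁) ∧ Nonempty (L ≃o A) := by
  have := d1.to_subtype
  have lo : ∀ x, ∃ d : D, d.1 < x := fun x => by
    obtain ⟨y, hy⟩ := exists_lt x
    obtain ⟨d, a, -, b⟩ := d2 y x hy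
    exact ⟨⟨d, a⟩, b⟩
  have hi : ∀ x, ∃ d : D, x < d.1 := fun x => by
    obtain ⟨y, hy⟩ := exists_gt x
    obtain ⟨d, a, b, -⟩ := d2 x y hy
    exact ⟨⟨d, a⟩, b⟩
  have : DenselyOrdered D := ⟨fun a b l => let ⟨d, i, j⟩ := d2 a b l; ⟨⟨d, i⟩, j⟩⟩
  have : NoMinOrder D := ⟨fun a => lo a⟩
  have : NoMaxOrder D := ⟨fun a => hi a⟩
  have := h.1
  have : Nonempty D := ⟨(lo (Classical.arbitrary L)).choose⟩
  obtain ⟨e⟩ := Order.iso_of_countable_dense D ℚ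
  let φ : L → ℝ := fun x => sSup ((fun d : D => (e d : ℝ)) '' {d | d.1 < x})
  have u : ∀ x (d : D), x ≤ d.1 → φ x ≤ e d := fun x d l => csSup_le ((lo x).elim fun d h => ⟨_, d, h, rfl⟩) (by
    rintro _ ⟨d', k, rfl⟩
    exact Rat.cast_le.2 (e.monotone (k.trans_le l).le))
  have v : ∀ x (d : D), d.1 < x → (e d : ℝ) ≤ φ x := fun x d l => le_csSup ((hi x).elim fun d' h => ⟨e d', by
    rintro _ ⟨d, k, rfl⟩
    exact Rat.cast_le.2 (e.monotone (k.trans h).le)⟩) ⟨d, l, rfl⟩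
  have sm : StrictMono φ := fun x y l => by
    obtain ⟨a, a1, a2, a3⟩ := d2 x y l
    obtain ⟨b, b1, b2, b3⟩ := d2 a y a3
    exact (u x ⟨a, a1⟩ a2.le).trans_lt ((Rat.cast_lt.2 (e.strictMono (show (⟨a, a1⟩ : D) < ⟨b, b1⟩ from b2))).trans_le
      (v y ⟨b, b1⟩ b3))
  refine ⟨range φ, fun a b l => ?_, ⟨sm.orderIso φ⟩⟩
  rw [← image_preimage_eq_range_inter, mk_image_eq sm.injective]
  obtain ⟨q, q1, q2⟩ := exists_rat_btwn l
  obtain ⟨r, r1, r2⟩ := exists_rat_btwn q2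
  obtain ⟨m, m1⟩ := exists_rat_lt a
  obtain ⟨n, n1⟩ := exists_rat_gt b
  refine le_antisymm (le_trans (mk_le_mk_of_subset fun x hx => ?_) (h.2 (e.symm m).1 (e.symm (n + 1)).1
    (e.symm.strictMono (by exact_mod_cast (m1.trans (l.trans n1)).trans (lt_add_one _)))).le)
    (le_trans (h.2 (e.symm q).1 (e.symm r).1 (e.symm.strictMono (Rat.cast_lt.1 r1))).ge
      (mk_le_mk_of_subset fun x hx => ⟨q1.trans_le (by simpa using v x _ hx.1), lt_of_le_of_lt (by simpa using u x _ hx.2.le) r2⟩))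
  refine ⟨not_le.1 fun k => (m1.trans hx.1).not_ge (by simpa using u x _ k), not_le.1 fun k => (hx.2.trans n1).not_ge ?_⟩
  simpa using v x (e.symm n) (lt_of_lt_of_le (e.symm.strictMono (lt_add_one n)) k)

end Pool.Agent.H.MP_6f3246_lc
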